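import Pool.Agent.W434.BW.StmC

/-! Project BW (helper434), part C: BW-NLB. -/

set_option autoImplicit false

namespace Pool.Agent.W557.BWNlb

open Pool.Agent.W434.BW

theorem noLatin {Ω : Type} {ar : Ω → ℕ} {Q : Type} (q : Alg ar Q) (v : Tm ar (Fin 3))
    (w : Tm ar (Fin 4)) (hid : Idem q) (hvw : LinkedWnu (v.ev q) (w.ev q)) : NoLatin q := by
  intro L hL hrow hcol x y
  obtain ⟨A, hA1, hA2⟩ : ∃ A : Q → Q, (∀ x, L (A x) y = x) ∧ ∀ a, A (L a y) = a := by
    obtain ⟨A, h1, h2⟩ := Function.bijective_iff_has_inverse.1 (hcol y)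
    exact ⟨A, h2, h1⟩
  obtain ⟨B, hB1, hB2⟩ : ∃ B : Q → Q, (∀ x, L y (B x) = x) ∧ ∀ a, B (L y a) = a := by
    obtain ⟨B, h1, h2⟩ := Function.bijective_iff_has_inverse.1 (hrow y)
    exact ⟨B, h2, h1⟩
  have hAh : ∀ ω x, A (q ω x) = q ω (fun i => A (x i)) := by
    intro ω x
    rw [← hA2 (q ω (fun i => A (x i)))]
    congr 1
    conv_rhs => rw [← hid ω y]
    rw [hL]
    congr 1
    funext i
    exact (hA1 (x i)).symm
  have hBh : ∀ ω x, B (q ω x) = q ω (fun i => B (x i)) := by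
    intro ω x
    rw [← hB2 (q ω (fun i => B (x i)))]
    congr 1
    conv_rhs => rw [← hid ω y]
    rw [hL]
    congr 1
    funext i
    exact (hB1 (x i)).symm
  let op : Q → Q → Q := fun x z => L (A x) (B z)
  let o : Q := L y y
  have ho1 : ∀ z, op o z = z := by
    intro z
    show L (A (L y y)) (B z) = z
    rw [hA2, hB1]
  have ho2 : ∀ z, op z o = z := by
    intro z
    show L (A z) (B (L y y)) = z
    rw [hB2, hA1]
  have hinj : ∀ a b c, op a b = op a c → b = c := by
    intro a b c h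
    have h1 : B b = B c := (hrow (A a)).1 h
    rw [← hB1 b, h1, hB1]
  have hop : Hom (prodA q q) q (fun p : Q × Q => op p.1 p.2) := by
    intro ω z
    show L (A (q ω (fun i => (z i).1))) (B (q ω (fun i => (z i).2))) = _
    rw [hAh, hBh, hL]
  have hterm : ∀ {V : Type} (t : Tm ar V) (a b : V → Q),
      t.ev q (fun i => op (a i) (b i)) = op (t.ev q a) (t.ev q b) := by
    intro V t a b
    have h1 := ev_hom hop t (fun i => (a i, b i))
    rw [ev_prod] at h1
    exact h1.symm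
  obtain ⟨i1, i2, i3, i4, i5⟩ := hvw
  dsimp only at i1 i2 i3 i4 i5
  have hv : ∀ a b c, v.ev q ![a, b, c] =
      op (op (v.ev q ![a, o, o]) (v.ev q ![b, o, o])) (v.ev q ![c, o, o]) := by
    intro a b c
    have e1 : v.ev q ![b, o, o] = v.ev q ![o, b, o] := (i3 o b).1
    have e2 : v.ev q ![c, o, o] = v.ev q ![o, o, c] := (i3 o c).1.trans (i3 o c).2
    rw [e1, e2, ← hterm, ← hterm]
    congr 1
    funext i
    fin_cases i
    · show a = op (op a o) o
      rw [ho2, ho2]
    · show b = op (op o b) o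
      rw [ho2, ho1]
    · show c = op (op o o) c
      rw [ho1, ho1]
  have hw : ∀ a b c d, w.ev q ![a, b, c, d] =
      op (op (op (v.ev q ![a, o, o]) (v.ev q ![b, o, o])) (v.ev q ![c, o, o]))
        (v.ev q ![d, o, o]) := by
    intro a b c d
    have e0 : v.ev q ![a, o, o] = w.ev q ![a, o, o, o] := i5 o a
    have e1 : v.ev q ![b, o, o] = w.ev q ![o, b, o, o] := (i5 o b).trans (i4 o b).1
    have e2 : v.ev q ![c, o, o] = w.ev q ![o, o, c, o] :=
      ((i5 o c).trans (i4 o c).1).trans (i4 o c).2.1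
    have e3 : v.ev q ![d, o, o] = w.ev q ![o, o, o, d] :=
      (((i5 o d).trans (i4 o d).1).trans (i4 o d).2.1).trans (i4 o d).2.2
    rw [e0, e1, e2, e3, ← hterm, ← hterm, ← hterm]
    congr 1
    funext i
    fin_cases i
    · show a = op (op (op a o) o) o
      rw [ho2, ho2, ho2]
    · show b = op (op (op o b) o) o
      rw [ho2, ho2, ho1]
    · show c = op (op (op o o) c) o
      rw [ho2, ho1, ho1]
    · show d = op (op (op o o) o) d
      rw [ho1, ho1, ho1]
  have hall : ∀ z, z = o := by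
    intro z
    have h1 := hv z z z
    have h2 := hw z z z z
    rw [i1] at h1
    rw [i2, ← h1] at h2
    have h3 : v.ev q ![z, o, o] = o := by
      apply hinj z
      rw [← h2, ho2]
    rw [h3, ho1, ho1] at h1
    exact h1
  rw [hall x, hall y]

theorem nlb : S_nlb := by
  refine ⟨fun Ω ar Q q v w h1 h2 => noLatin q v w h1 h2, ?_⟩
  rintro A E hId ⟨v, hv, w, hw, hvw⟩ P hP Q _ q h hh hs
  have hidA : Idem (clA E) := fun ω x => hId ω.1 ω.2.1 ω.2.2 x
  have hidq : Idem q := idem_img hh hs (idem_sub P hP hidA)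
  let w' : Tm (opAr E) (Fin 4) := .app (⟨4, ⟨w, hw⟩⟩ : OpSym E) (fun i => .var i)
  have kv : ∀ x y z : P, ((((tm3 E v hv).ev (subA (clA E) P hP) ![x, y, z] : P)) : A) =
      v ![(x : A), y, z] := by
    intro x y z
    rw [ev_sub, vec3 (fun s : P => (s : A))]
    rfl
  have kw : ∀ x y z t : P, (((w'.ev (subA (clA E) P hP) ![x, y, z, t] : P)) : A) =
      w ![(x : A), y, z, t] := by
    intro x y z t
    rw [ev_sub, vec4 (fun s : P => (s : A))]
    rfl
  have lv : ∀ x y z : P, (tm3 E v hv).ev q ![h x, h y, h z] =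
      h ((tm3 E v hv).ev (subA (clA E) P hP) ![x, y, z]) := by
    intro x y z
    rw [ev_hom hh, vec3]
  have lw : ∀ x y z t : P, w'.ev q ![h x, h y, h z, h t] =
      h (w'.ev (subA (clA E) P hP) ![x, y, z, t]) := by
    intro x y z t
    rw [ev_hom hh, vec4]
  obtain ⟨i1, i2, i3, i4, i5⟩ := hvw
  refine noLatin q (tm3 E v hv) w' hidq ⟨?_, ?_, ?_, ?_, ?_⟩
  · intro a
    obtain ⟨a, rfl⟩ := hs a
    beta_reduce
    rw [lv]
    congr 1
    apply Subtype.ext
    rw [kv, i1]
  · intro a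
    obtain ⟨a, rfl⟩ := hs a
    beta_reduce
    rw [lw]
    congr 1
    apply Subtype.ext
    rw [kw, i2]
  · intro x y
    obtain ⟨x, rfl⟩ := hs x
    obtain ⟨y, rfl⟩ := hs y
    beta_reduce
    rw [lv, lv, lv]
    constructor
    · congr 1
      apply Subtype.ext
      rw [kv, kv, (i3 x y).1]
    · congr 1
      apply Subtype.ext
      rw [kv, kv, (i3 x y).2]
  · intro x y
    obtain ⟨x, rfl⟩ := hs x
    obtain ⟨y, rfl⟩ := hs y
    beta_reduce
    rw [lw, lw, lw, lw]
    refine ⟨?_, ?_, ?_⟩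
    · congr 1
      apply Subtype.ext
      rw [kw, kw, (i4 x y).1]
    · congr 1
      apply Subtype.ext
      rw [kw, kw, (i4 x y).2.1]
    · congr 1
      apply Subtype.ext
      rw [kw, kw, (i4 x y).2.2]
  · intro x y
    obtain ⟨x, rfl⟩ := hs x
    obtain ⟨y, rfl⟩ := hs y
    beta_reduce
    rw [lv, lw]
    congr 1
    apply Subtype.ext
    rw [kv, kw, i5]

end Pool.Agent.W557.BWNlb
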