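import Pool.Agent.W434.BW.StmA

/-! Project BW (helper434), part LINK: absorption preserves linkedness. -/

set_option autoImplicit false

namespace Pool.Agent.W557.BW

open Pool.Agent.W434.BW

theorem link : S_link := by
  intro Ω ar X Y a b R t C D hI hR hC hD hCD hL c hc c' hc'
  have rel3 : ∀ (x1 x2 x3 : X) (y1 y2 y3 : Y), R x1 y1 → R x2 y2 → R x3 y3 →
      R (t.ev a ![x1, x2, x3]) (t.ev b ![y1, y2, y3]) := by
    intro x1 x2 x3 y1 y2 y3 h1 h2 h3
    apply ev_rel hR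
    intro v
    fin_cases v
    · exact h1
    · exact h2
    · exact h3
  have idem3 : ∀ x : X, t.ev a ![x, x, x] = x := by
    intro x
    have h : (![x, x, x] : Fin 3 → X) = fun _ => x := by
      funext v
      fin_cases v <;> rfl
    rw [h]
    exact ev_idem hI t x
  obtain ⟨d, hd, hcd⟩ := hCD c hc
  obtain ⟨d', hd', hcd'⟩ := hCD c' hc'
  have hch := hL c c'
  -- first position
  have s1 : ∀ x x' : X, Relation.ReflTransGen (fun a b => ∃ y, R a y ∧ R b y) x x' →
      Relation.ReflTransGen (fun x x' => x ∈ C ∧ x' ∈ C ∧ ∃ y ∈ D, R x y ∧ R x' y)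
        (t.ev a ![x, c, c]) (t.ev a ![x', c, c]) := by
    intro x x' h
    induction h with
    | refl => exact Relation.ReflTransGen.refl
    | tail _ h2 ih =>
      obtain ⟨y, hy1, hy2⟩ := h2
      refine ih.tail ⟨(hC c hc c hc _).2.2, (hC c hc c hc _).2.2, t.ev b ![y, d, d],
        (hD d hd d hd _).2.2, rel3 _ _ _ _ _ _ hy1 hcd hcd, rel3 _ _ _ _ _ _ hy2 hcd hcd⟩
  have s2 : ∀ x x' : X, Relation.ReflTransGen (fun a b => ∃ y, R a y ∧ R b y) x x' →
      Relation.ReflTransGen (fun x x' => x ∈ C ∧ x' ∈ C ∧ ∃ y ∈ D, R x y ∧ R x' y)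
        (t.ev a ![c', x, c]) (t.ev a ![c', x', c]) := by
    intro x x' h
    induction h with
    | refl => exact Relation.ReflTransGen.refl
    | tail _ h2 ih =>
      obtain ⟨y, hy1, hy2⟩ := h2
      refine ih.tail ⟨(hC c' hc' c hc _).2.1, (hC c' hc' c hc _).2.1, t.ev b ![d', y, d],
        (hD d' hd' d hd _).2.1, rel3 _ _ _ _ _ _ hcd' hy1 hcd, rel3 _ _ _ _ _ _ hcd' hy2 hcd⟩
  have s3 : ∀ x x' : X, Relation.ReflTransGen (fun a b => ∃ y, R a y ∧ R b y) x x' →
      Relation.ReflTransGen (fun x x' => x ∈ C ∧ x' ∈ C ∧ ∃ y ∈ D, R x y ∧ R x' y)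
        (t.ev a ![c', c', x]) (t.ev a ![c', c', x']) := by
    intro x x' h
    induction h with
    | refl => exact Relation.ReflTransGen.refl
    | tail _ h2 ih =>
      obtain ⟨y, hy1, hy2⟩ := h2
      refine ih.tail ⟨(hC c' hc' c' hc' _).1, (hC c' hc' c' hc' _).1, t.ev b ![d', d', y],
        (hD d' hd' d' hd' _).1, rel3 _ _ _ _ _ _ hcd' hcd' hy1, rel3 _ _ _ _ _ _ hcd' hcd' hy2⟩
  have h1 := ((s1 c c' hch).trans (s2 c c' hch)).trans (s3 c c' hch)
  rwa [idem3, idem3] at h1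

end Pool.Agent.W557.BW
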